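import Pool.Agent.H7.MF.Stmts

/-! Board mf18 (MP_fd41b2_co), row NDE, helper38 (after the row NDMY of the board gy11 by helper87) -/

set_option autoImplicit false

open Finset

namespace Pool.MF7

open Pool.Agent.H23.KT Pool.Agent.H46.KW Pool.KQ Pool.GT7 Pool.GU7 Pool.GV7

/-- Lower bound of the weights. -/
theorem NDE_ww (p r B : ℕ) (hr : r ≤ p) :
    ((p : ℝ) + 3) / ((p : ℝ) + 3 - r) * (1 - r * (1 / ((B : ℝ) + 1))) ≤ ww p r B := by
  have hrR : (r : ℝ) ≤ p := by exact_mod_cast hr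
  have hb : 0 < (p : ℝ) + 3 - r := by linarith
  have hB : 0 < (B : ℝ) + 1 := by positivity
  unfold ww gg
  push_cast
  split_ifs with h
  · have h' : (B : ℝ) + 1 ≤ r := by exact_mod_cast h
    have h1 : 1 ≤ r * (1 / ((B : ℝ) + 1)) := by
      rw [mul_one_div, one_le_div hB]; exact h'
    have h2 : ((p : ℝ) + 3) / ((p : ℝ) + 3 - r) * (1 - r * (1 / ((B : ℝ) + 1))) ≤ 0 :=
      mul_nonpos_of_nonneg_of_nonpos (by positivity) (by linarith)
    linarith
  · apply le_of_eq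
    field_simp
    ring

/-- Convexity between `y` and `1`. -/
theorem NDE_conv (u : ℕ) (y x : ℝ) (hy0 : 0 < y) (hy1 : y < 1) (hx : y ≤ x) (hx1 : x ≤ 1) :
    x ^ u ≤ (1 - x) / (1 - y) * y ^ u + (1 - (1 - x) / (1 - y)) := by
  have h1 : 0 < 1 - y := by linarith
  have hl0 : 0 ≤ (1 - x) / (1 - y) := div_nonneg (by linarith) h1.le
  have hl1 : (1 - x) / (1 - y) ≤ 1 := by rw [div_le_one h1]; linarith
  have hc : ConvexOn ℝ (Set.Ici (0 : ℝ)) fun t : ℝ => t ^ u := convexOn_pow u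
  have h2 := hc.2 (Set.mem_Ici.2 hy0.le) (Set.mem_Ici.2 zero_le_one) hl0
    (by linarith : (0 : ℝ) ≤ 1 - (1 - x) / (1 - y)) (by ring)
  simp only [smul_eq_mul, one_pow, mul_one] at h2
  have h3 : (1 - x) / (1 - y) * y + (1 - (1 - x) / (1 - y)) = x := by
    field_simp
    ring
  rw [h3] at h2
  exact h2

theorem NDE_k7 (p : ℝ) (hp : 4 ≤ p) : 49 ≤ (p + 3) ^ 2 := by nlinarith

theorem NDE_l (x y : ℝ) (h1 : x ≤ 1) (h2 : 0 < y) : (1 - x) * (1 - y) ≤ 1 - x := by nlinarith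

/-- The numerical part. `A = a ^ b`. -/
theorem NDE_num (p w r : ℕ) (h : PrE p w r) (hs1 : 1 / ((w : ℝ) + 2) ≤ sE p w r)
    (hs2 : sE p w r ≤ 2 / 3)
    (hG : ((p : ℝ) + 3) / (200 * ((w : ℝ) + 2)) ≤
      ((p : ℝ) + 3) * yE p w r - r - ((p : ℝ) + 3 - r) * yE p w r ^ (w + 2))
    (ε A N S T x : ℝ) (hA : 0 < A)
    (hε : ε = e1 p / (3200 * ((p : ℝ) + 3) ^ 3 * ((w : ℝ) + 2)))
    (h1 : (1 - ε) * A ≤ N) (h2 : N ≤ (1 + ε) * A)
    (h3 : S ≤ A * (1 / (((p : ℝ) + 3) * x) + ε))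
    (h4 : ((p : ℝ) + 3) / ((p : ℝ) + 3 - r) * (N - r * S) ≤ T) (hT : T ≤ N)
    (hx : yE p w r ≤ x) (hx1 : x ≤ 1 - e1 p / (8 * ((p : ℝ) + 2))) :
    x ^ (w + 1) * A ≤ (1 - et p w) * T := by
  have hp0 : (0 : ℝ) ≤ p := Nat.cast_nonneg p
  have hr0 : (0 : ℝ) ≤ r := Nat.cast_nonneg r
  have hw0 : (0 : ℝ) ≤ w := Nat.cast_nonneg w
  have he : 0 < e1 p := by unfold e1; positivity
  have he1 : e1 p ≤ 1 := by
    unfold e1
    rw [div_le_one (by positivity)]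
    have : (1 : ℝ) ≤ ((p : ℝ) + 3) ^ 3 := one_le_pow₀ (by linarith)
    linarith
  have hrp : (r : ℝ) ≤ p := by exact_mod_cast h.rp
  have hw2 : (2 : ℝ) ≤ w := by exact_mod_cast h.w2
  have hr4 : (4 : ℝ) ≤ r := by
    have := h.rw
    have := h.w2
    exact_mod_cast (by omega : 4 ≤ r)
  have hp4 : (4 : ℝ) ≤ p := by linarith
  have hβ : 0 < (p : ℝ) + 3 - r := by linarith
  have hspos : 0 < sE p w r := lt_of_lt_of_le (by positivity) hs1
  have hy0 : 0 < yE p w r := by unfold yE; linarith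
  have hy1 : yE p w r < 1 := by unfold yE; linarith
  have hx0 : 0 < x := lt_of_lt_of_le hy0 hx
  have hδ : 0 < e1 p / (8 * ((p : ℝ) + 2)) := by positivity
  have hxle : x ≤ 1 := by linarith
  have hεpos : 0 < ε := by rw [hε]; positivity
  have hε1 : ε ≤ 1 := by
    rw [hε, div_le_one (by positivity)]
    have m1 : (1 : ℝ) ≤ ((p : ℝ) + 3) ^ 3 := one_le_pow₀ (by linarith)
    have m2 : (1 : ℝ) ≤ ((p : ℝ) + 3) ^ 3 * ((w : ℝ) + 2) :=
      one_le_mul_of_one_le_of_one_le m1 (by linarith)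
    nlinarith
  -- (i)
  have hconv := NDE_conv (w + 2) (yE p w r) x hy0 hy1 hx hxle
  have h1y : 0 < 1 - yE p w r := by linarith
  set l : ℝ := (1 - x) / (1 - yE p w r) with hl
  have hl0 : 0 ≤ l := div_nonneg (by linarith) h1y.le
  have hll : e1 p / (8 * ((p : ℝ) + 2)) ≤ l := by
    have : 1 - x ≤ l := by
      rw [hl, le_div_iff₀ h1y]
      exact NDE_l x _ hxle hy0
    linarith
  have hlx : x = 1 - l * (1 - yE p w r) := by
    rw [hl]; field_simp; ring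
  have i1 : e1 p / (8 * ((p : ℝ) + 2)) * (((p : ℝ) + 3) / (200 * ((w : ℝ) + 2))) ≤
      ((p : ℝ) + 3) * x - r - ((p : ℝ) + 3 - r) * x ^ (w + 2) := by
    have j1 : ((p : ℝ) + 3 - r) * x ^ (w + 2) ≤
        ((p : ℝ) + 3 - r) * (l * yE p w r ^ (w + 2) + (1 - l)) :=
      mul_le_mul_of_nonneg_left hconv hβ.le
    have j2 : ((p : ℝ) + 3) * x = ((p : ℝ) + 3) - l * (((p : ℝ) + 3) -
        ((p : ℝ) + 3) * yE p w r) := by
      nth_rewrite 1 [hlx]
      ring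
    have j3 : e1 p / (8 * ((p : ℝ) + 2)) * (((p : ℝ) + 3) / (200 * ((w : ℝ) + 2))) ≤
        l * (((p : ℝ) + 3) * yE p w r - r - ((p : ℝ) + 3 - r) * yE p w r ^ (w + 2)) :=
      mul_le_mul hll hG (by positivity) hl0
    have j4 : ((p : ℝ) + 3) - l * (((p : ℝ) + 3) - ((p : ℝ) + 3) * yE p w r) - r -
        ((p : ℝ) + 3 - r) * (l * yE p w r ^ (w + 2) + (1 - l)) =
        l * (((p : ℝ) + 3) * yE p w r - r - ((p : ℝ) + 3 - r) * yE p w r ^ (w + 2)) := by
      ring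
    linarith
  -- (iii)
  have i3 : e1 p / (8 * ((p : ℝ) + 2)) / (200 * ((w : ℝ) + 2)) ≤
      (((p : ℝ) + 3) - r * (1 / x)) / ((p : ℝ) + 3 - r) - x ^ (w + 1) := by
    have k1 : (((p : ℝ) + 3) - r * (1 / x)) / ((p : ℝ) + 3 - r) - x ^ (w + 1) =
        (((p : ℝ) + 3) * x - r - ((p : ℝ) + 3 - r) * x ^ (w + 2)) /
          (((p : ℝ) + 3 - r) * x) := by
      field_simp
      ring
    rw [k1, le_div_iff₀ (by positivity)]
    refine le_trans ?_ i1
    have e0 : 0 ≤ e1 p / (8 * ((p : ℝ) + 2)) / (200 * ((w : ℝ) + 2)) := by positivity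
    have e2 : ((p : ℝ) + 3 - r) * x ≤ (p : ℝ) + 3 := by
      have : ((p : ℝ) + 3 - r) * x ≤ ((p : ℝ) + 3 - r) * 1 := mul_le_mul_of_nonneg_left hxle hβ.le
      linarith
    refine (mul_le_mul_of_nonneg_left e2 e0).trans (le_of_eq ?_)
    field_simp
  -- (ii)
  have i2 : A * ((((p : ℝ) + 3) - r * (1 / x)) / ((p : ℝ) + 3 - r) -
      ε * (((p : ℝ) + 3) * (1 + r) / ((p : ℝ) + 3 - r))) ≤ T := by
    refine le_trans ?_ h4
    have k2 : A * ((((p : ℝ) + 3) - r * (1 / x)) / ((p : ℝ) + 3 - r) -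
        ε * (((p : ℝ) + 3) * (1 + r) / ((p : ℝ) + 3 - r))) =
        ((p : ℝ) + 3) / ((p : ℝ) + 3 - r) *
          ((1 - ε) * A - r * (A * (1 / (((p : ℝ) + 3) * x) + ε))) := by
      field_simp
      ring
    rw [k2]
    apply mul_le_mul_of_nonneg_left _ (by positivity)
    have := mul_le_mul_of_nonneg_left h3 hr0
    linarith
  have hK : ((p : ℝ) + 3) * (1 + r) / ((p : ℝ) + 3 - r) ≤ ((p : ℝ) + 3) ^ 2 := by
    rw [div_le_iff₀ hβ]
    have m1 : ((p : ℝ) + 3) * (1 + r) ≤ ((p : ℝ) + 3) * ((p : ℝ) + 3) :=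
      mul_le_mul_of_nonneg_left (by linarith) (by linarith)
    have m2 : ((p : ℝ) + 3) ^ 2 * 1 ≤ ((p : ℝ) + 3) ^ 2 * ((p : ℝ) + 3 - r) :=
      mul_le_mul_of_nonneg_left (by linarith) (by positivity)
    have m3 : ((p : ℝ) + 3) ^ 2 = ((p : ℝ) + 3) * ((p : ℝ) + 3) := sq _
    linarith
  have hεK : ε * (((p : ℝ) + 3) * (1 + r) / ((p : ℝ) + 3 - r)) ≤
      e1 p / (3200 * ((p : ℝ) + 3) * ((w : ℝ) + 2)) := by
    refine (mul_le_mul_of_nonneg_left hK hεpos.le).trans (le_of_eq ?_)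
    rw [hε]; field_simp
  have hch : (1 : ℝ) ≤ ((p + 2).choose (w + 1) : ℝ) := by
    have : 1 ≤ (p + 2).choose (w + 1) := Nat.choose_pos (by have := h.wp; omega)
    exact_mod_cast this
  have het0 : 0 ≤ et p w := by unfold et; positivity
  have het : 2 * et p w ≤ e1 p / (3200 * ((p : ℝ) + 3) * ((w : ℝ) + 2)) := by
    have k3 : et p w ≤ e1 p / (256 * ((p : ℝ) + 3) ^ 3 * ((w : ℝ) + 2)) := by
      unfold et
      apply div_le_div_of_nonneg_left he.le (by positivity)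
      have k4 : (w : ℝ) + 2 ≤ ((w : ℝ) + 2) * (p + 2).choose (w + 1) :=
        le_mul_of_one_le_right (by linarith) hch
      have k5 : 0 < 256 * ((p : ℝ) + 3) ^ 3 := by positivity
      have := mul_le_mul_of_nonneg_left k4 k5.le
      linarith
    have k6 : e1 p / (256 * ((p : ℝ) + 3) ^ 3 * ((w : ℝ) + 2)) ≤
        e1 p / (6400 * ((p : ℝ) + 3) * ((w : ℝ) + 2)) := by
      apply div_le_div_of_nonneg_left he.le (by positivity)
      have k7 : (49 : ℝ) ≤ ((p : ℝ) + 3) ^ 2 := NDE_k7 _ hp4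
      have : 256 * ((p : ℝ) + 3) ^ 3 * ((w : ℝ) + 2) =
        256 * ((p : ℝ) + 3) ^ 2 * (((p : ℝ) + 3) * ((w : ℝ) + 2)) := by ring
      rw [this]
      have k9 : 0 ≤ ((p : ℝ) + 3) * ((w : ℝ) + 2) := by positivity
      have := mul_le_mul_of_nonneg_right (by linarith : (6400 : ℝ) ≤ 256 * ((p : ℝ) + 3) ^ 2) k9
      linarith
    have k8 : e1 p / (3200 * ((p : ℝ) + 3) * ((w : ℝ) + 2)) =
        2 * (e1 p / (6400 * ((p : ℝ) + 3) * ((w : ℝ) + 2))) := by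
      field_simp; norm_num
    linarith
  have hfin : e1 p / (3200 * ((p : ℝ) + 3) * ((w : ℝ) + 2)) +
      e1 p / (3200 * ((p : ℝ) + 3) * ((w : ℝ) + 2)) ≤
      e1 p / (8 * ((p : ℝ) + 2)) / (200 * ((w : ℝ) + 2)) := by
    have k9 : e1 p / (3200 * ((p : ℝ) + 3) * ((w : ℝ) + 2)) +
        e1 p / (3200 * ((p : ℝ) + 3) * ((w : ℝ) + 2)) =
        e1 p / (1600 * ((p : ℝ) + 3) * ((w : ℝ) + 2)) := by
      field_simp; norm_num
    have k10 : e1 p / (8 * ((p : ℝ) + 2)) / (200 * ((w : ℝ) + 2)) =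
        e1 p / (1600 * ((p : ℝ) + 2) * ((w : ℝ) + 2)) := by
      field_simp; norm_num
    rw [k9, k10]
    refine div_le_div_of_nonneg_left he.le (by positivity) ?_
    exact mul_le_mul_of_nonneg_right (by linarith) (by positivity)
  have hT2 : T ≤ 2 * A := by
    have : (1 + ε) * A ≤ 2 * A := mul_le_mul_of_nonneg_right (by linarith) hA.le
    linarith
  have i4 : et p w * T ≤ 2 * et p w * A := by
    have := mul_le_mul_of_nonneg_left hT2 het0
    linarith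
  have i5 : A * (x ^ (w + 1) + 2 * et p w) ≤ A * ((((p : ℝ) + 3) - r * (1 / x)) /
      ((p : ℝ) + 3 - r) - ε * (((p : ℝ) + 3) * (1 + r) / ((p : ℝ) + 3 - r))) := by
    apply mul_le_mul_of_nonneg_left _ hA.le
    linarith
  have i6 : A * (x ^ (w + 1) + 2 * et p w) = x ^ (w + 1) * A + 2 * et p w * A := by ring
  have i7 : (1 - et p w) * T = T - et p w * T := by ring
  linarith

theorem NDE_thm (hN : NUEStmt) (hG : Pool.GY7.PRGStmt) (hP : PRFStmt) (hZ : ZYGStmt)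
    (hC : CCK0Stmt) (hO : GCO0Stmt) (_hGC : GCEStmt) : NDEStmt := by
  intro p w r h
  have hp0 : (0 : ℝ) ≤ p := Nat.cast_nonneg p
  have h0 : Pr0 p w r := ⟨h.wp, by have := h.rw; omega, h.rp⟩
  have he : 0 < e1 p := by unfold e1; positivity
  obtain ⟨n1, n2, -, -, n5, -⟩ := hN p w r h
  have hs0 : 0 < sE p w r := lt_of_lt_of_le (by positivity) n1
  have hy0 : 0 < yE p w r := by unfold yE; linarith
  set ε : ℝ := e1 p / (3200 * ((p : ℝ) + 3) ^ 3 * ((w : ℝ) + 2)) with hε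
  have hε0 : 0 < ε := by positivity
  obtain ⟨e₀, he₀, hP1⟩ := hP p ε hε0
  obtain ⟨e₂, he₂, hG1⟩ := hG p ε (yE p w r) hε0 hy0
  refine ⟨min (min e₀ e₂) (e1 p / 2), lt_min (lt_min he₀ he₂) (by positivity), fun C => ?_⟩
  obtain ⟨a₀, hP2⟩ := hP1 C
  obtain ⟨a₂, hG2⟩ := hG1 C
  refine ⟨max (max a₀ a₂) 1, fun a ha V _ G e W P U hStr he0 hee hCB z hz hn => ?_⟩
  have ha0 : a₀ ≤ a := le_trans (le_trans (le_max_left _ _) (le_max_left _ _)) ha
  have ha2 : a₂ ≤ a := le_trans (le_trans (le_max_right _ _) (le_max_left _ _)) ha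
  have ha1 : 1 ≤ a := le_trans (le_max_right _ _) ha
  have haR : (0 : ℝ) < a := by exact_mod_cast ha1
  have hee0 : e ≤ e₀ := hee.trans ((min_le_left _ _).trans (min_le_left _ _))
  have hee2 : e ≤ e₂ := hee.trans ((min_le_left _ _).trans (min_le_right _ _))
  obtain ⟨p1, p2, -, -, -, -, p7⟩ := hP2 a ha0 G e W P U hStr he0 hee0 hCB z hz
  have hn' : yE p w r * (((p : ℝ) + 2) * a) ≤ ((nb G (un P) z).card : ℝ) := hn
  have g1 := hG2 a ha2 G e W P U hStr he0 hee2 hCB z hz hn'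
  obtain ⟨c1, -, -, -⟩ := hC G p w r a e C W P U h0 hStr he0 (hee.trans (min_le_right _ _)) hCB z hz
  obtain ⟨o1, -⟩ := hO p w r h0
  set X := un P with hX
  have hXW : X ⊆ W := by
    intro v hv
    rw [hX, un, mem_biUnion] at hv
    obtain ⟨i, -, hi⟩ := hv
    exact (hStr.cov v).2 (Or.inr ⟨i, hi⟩)
  have hzW : z ∈ W := (hStr.cov z).2 (Or.inl hz)
  set x : ℝ := ((nb G X z).card : ℝ) / (((p : ℝ) + 2) * a) with hx
  have hxn : ((nb G X z).card : ℝ) = x * (((p : ℝ) + 2) * a) := by rw [hx]; field_simp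
  have hA : (0 : ℝ) < (a : ℝ) ^ (p + 3) := by positivity
  have hyx : yE p w r ≤ x := by
    rw [hx, le_div_iff₀ (by positivity)]; exact hn'
  have hx0 : 0 < x := lt_of_lt_of_le hy0 hyx
  have hT : TZ G p r X z ≤ (kc G X (p + 3) : ℝ) := by
    unfold TZ
    have : (kc G X (p + 3) : ℝ) = ∑ L ∈ clq G X (p + 3), (1 : ℝ) := by
      rw [sum_const, nsmul_eq_mul, mul_one]
      rfl
    rw [this]
    exact sum_le_sum fun L hL => (o1 _ (c1 L hL)).2.1
  have h4 : ((p : ℝ) + 3) / ((p : ℝ) + 3 - r) * ((kc G X (p + 3) : ℝ) -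
      r * ∑ L ∈ clq G X (p + 3), 1 / (((nb G L z).card : ℝ) + 1)) ≤ TZ G p r X z := by
    unfold TZ
    have : (kc G X (p + 3) : ℝ) = ∑ L ∈ clq G X (p + 3), (1 : ℝ) := by
      rw [sum_const, nsmul_eq_mul, mul_one]
      rfl
    rw [this, mul_sum, ← sum_sub_distrib, mul_sum]
    exact sum_le_sum fun L _ => NDE_ww p r _ h.rp
  have key := NDE_num p w r h n1 n2 n5 ε ((a : ℝ) ^ (p + 3)) (kc G X (p + 3))
    (∑ L ∈ clq G X (p + 3), 1 / (((nb G L z).card : ℝ) + 1)) (TZ G p r X z) x hA hε p1 p2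
    (by
      refine g1.trans (le_of_eq ?_)
      rw [hxn]
      congr 2
      field_simp) h4 hT hyx
    (by
      rw [hx, div_le_iff₀ (by positivity)]
      refine p7.trans (le_of_eq ?_)
      field_simp)
  -- Zykov
  have hCBz : CB G (nb G X z) (p + 2) := by
    intro S hS hcl
    have hzS : z ∉ S := fun hzS => G.loopless.irrefl z ((mem_nb G).1 (hS hzS)).2
    have := hCB (insert z S)
      (by
        intro v hv
        rcases mem_insert.1 hv with rfl | hv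
        · exact hzW
        · exact hXW ((mem_nb G).1 (hS hv)).1)
      (by
        rw [coe_insert]
        refine hcl.insert fun v hv _ => ((mem_nb G).1 (hS hv)).2)
    rw [card_insert_of_notMem hzS] at this
    omega
  have hk := hZ G (p + 2) (nb G X z) hCBz (w + 1)
  have hk2 : (kc G (nb G X z) (w + 1) : ℝ) ≤
      (p + 2).choose (w + 1) * (x ^ (w + 1) * (a : ℝ) ^ (w + 1)) := by
    refine hk.trans (le_of_eq ?_)
    rw [hxn, ← mul_pow]
    congr 2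
    push_cast
    field_simp
  unfold nd
  apply max_eq_left
  have e9 : (1 - et p w) * ((p + 2).choose (w + 1) * (a : ℝ) ^ (w + 1) / (a : ℝ) ^ (p + 3)) *
      TZ G p r X z = (p + 2).choose (w + 1) * ((a : ℝ) ^ (w + 1) *
        ((1 - et p w) * TZ G p r X z / (a : ℝ) ^ (p + 3))) := by
    ring
  rw [e9, sub_nonpos]
  refine hk2.trans ?_
  apply mul_le_mul_of_nonneg_left _ (Nat.cast_nonneg _)
  rw [mul_comm]
  apply mul_le_mul_of_nonneg_left _ (by positivity)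
  rw [le_div_iff₀ hA]
  exact key

theorem nde_thm (hN : NUEStmt) (hG : Pool.GY7.PRGStmt) (hP : PRFStmt) (hZ : ZYGStmt)
    (hC : CCK0Stmt) (hO : GCO0Stmt) (hGC : GCEStmt) : NDEStmt :=
  NDE_thm hN hG hP hZ hC hO hGC

end Pool.MF7
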